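import Pool.Agent.H36.LR.Rec

/-!
# The graph form of the log-rank conjecture for graphs with few large eigenvalues on one side

Let `G` be a twin-free graph with real adjacency rank `r > 1`, let `μ ≥ 0` and let `m` be the
smaller one of the number of eigenvalues larger than `μ` and the number of eigenvalues smaller
than `-μ` of the adjacency matrix. Then

  `log₂ χ(G) ≤ 2400 (√m + log₂ r) log₂ r + log₂ (μ + 2)`.

For `μ = 0` the number `m` is `min (n₊, n₋)` (the inertia); since `n₊ + n₋ = r`, the bound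
contains the bound `O(√r log r)`, with `√r` replaced by `√(min (n₊, n₋))`. The bound asked for in
the question follows for all graphs for which all but polylogarithmically many of the eigenvalues
of one of the two signs are at most quasipolynomial in the rank, however many eigenvalues the
other sign has.

Proof. Let `N` be `A` or `-A`, restricted to a set `W` of vertices, and let `q` be the number of
eigenvalues of `N` above `μ`. The trace of `N` is zero and the squares of its eigenvalues have sum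
at most `|W|²`, so the absolute values of the eigenvalues have sum at most `2 (√q |W| + μ r)`:
only the eigenvalues of one sign matter. The spectral decomposition gives vectors with
`⟪z u, w v⟫ = N u v` whose squared norms are `O(√q + 1)` on average; for half of the vertices
always. For a standard Gaussian `g` the average of `sin ⟪g, z⟫ sin ⟪g, w⟫` is
`exp (-(|z|² + |w|²) / 2) sinh ⟪z, w⟫`, which is `0` for non-adjacent and at least `1 / O(√q + 1)`
for adjacent vertices (after scaling); multiplying `O(√q + 1) log r` such random weights gives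
nearly pure pairs `X`, `Y` in `W` of proportion `2 ^ (-O((√q + 1) log r))`, and these contain pure
pairs. In a pure pair of disjoint sets one of the two sets has at most half of the eigenvalues
above `μ` (interlacing, up to rounding). So the number of large eigenvalues can be halved until
it is `1` with total cost `O(√m log r)`, and then the rank is halved.
-/

set_option autoImplicit false

namespace Pool.Agent.Results.MP_3bd889_lc.FewLargeEigenvalues

open Finset
open Pool.Agent.Y424.LR (mat bv)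
open Pool.Agent.H36.LR

/-- the adjacency matrix with entries `true` and `false` -/
def adj {n : ℕ} (G : SimpleGraph (Fin n)) [DecidableRel G.Adj] (u v : Fin n) : Bool :=
  decide (G.Adj u v)

/-- the number of eigenvalues of the adjacency matrix which are larger than `μ` -/
noncomputable def above {n : ℕ} (G : SimpleGraph (Fin n)) [DecidableRel G.Adj] (μ : ℝ) : ℕ :=
  (univ.filter (fun i => μ < (G.isHermitian_adjMatrix ℝ).eigenvalues i)).card

/-- the number of eigenvalues of the adjacency matrix which are smaller than `-μ` -/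
noncomputable def below {n : ℕ} (G : SimpleGraph (Fin n)) [DecidableRel G.Adj] (μ : ℝ) : ℕ :=
  (univ.filter (fun i => (G.isHermitian_adjMatrix ℝ).eigenvalues i < -μ)).card

theorem mat_adj {n : ℕ} (G : SimpleGraph (Fin n)) [DecidableRel G.Adj] :
    mat (adj G) = G.adjMatrix ℝ := by
  ext u v
  rw [mat, Matrix.of_apply, SimpleGraph.adjMatrix_apply, Pool.Agent.Y424.LR.bv, adj]
  by_cases h : G.Adj u v
  · simp [h]
  · simp [h]

theorem few_above {n : ℕ} (G : SimpleGraph (Fin n)) [DecidableRel G.Adj] (μ : ℝ) :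
    Few ((1 : ℝ) • mat (adj G)) μ univ (above G μ) := by
  have h := few_univ (G.isHermitian_adjMatrix ℝ) 1 μ
  rw [mat_adj]
  unfold above
  simpa using h

theorem few_below {n : ℕ} (G : SimpleGraph (Fin n)) [DecidableRel G.Adj] (μ : ℝ) :
    Few ((-1 : ℝ) • mat (adj G)) μ univ (below G μ) := by
  have h := few_univ (G.isHermitian_adjMatrix ℝ) (-1) μ
  rw [mat_adj]
  unfold below
  have e : ∀ i, (G.isHermitian_adjMatrix ℝ).eigenvalues i < -μ ↔
      μ < -1 * (G.isHermitian_adjMatrix ℝ).eigenvalues i := by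
    intro i
    constructor <;> intro h <;> linarith
  simp_rw [e]
  exact h

theorem bound {n : ℕ} (G : SimpleGraph (Fin n)) [DecidableRel G.Adj]
    (htw : ∀ u v : Fin n, u ≠ v → ¬ G.Adj u v → G.neighborSet u ≠ G.neighborSet v)
    (hr : 1 < (G.adjMatrix ℝ).rank) {μ : ℝ} (hμ : 0 ≤ μ) {σ : ℝ} (hσ : σ = 1 ∨ σ = -1) {m : ℕ}
    (hm : Few (σ • mat (adj G)) μ univ m) :
    Real.logb 2 (G.chromaticNumber.toNat : ℝ) ≤
      2400 * (Real.sqrt m + Real.logb 2 ((G.adjMatrix ℝ).rank : ℝ)) *
        Real.logb 2 ((G.adjMatrix ℝ).rank : ℝ) + Real.logb 2 (μ + 2) := by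
  classical
  have hadj : ∀ u v, adj G u v = true ↔ G.Adj u v := fun u v => by simp [adj]
  have hsym : ∀ x y, adj G x y = adj G y x := fun x y => by simp [adj, G.adj_comm x y]
  have hirr : ∀ x, adj G x x = false := fun x => by simp [adj]
  have hinj : ∀ x y, adj G x = adj G y → x = y := by
    intro x y hxy
    by_contra hne
    have h1 : ∀ w, G.Adj x w ↔ G.Adj y w := by
      intro w
      rw [← hadj, ← hadj, congrFun hxy w]
    have hnadj : ¬ G.Adj x y := by
      intro h
      exact G.loopless.irrefl y ((h1 y).1 h)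
    apply htw x y hne hnadj
    ext w
    rw [SimpleGraph.mem_neighborSet, SimpleGraph.mem_neighborSet]
    exact h1 w
  obtain ⟨r, hrr⟩ : ∃ r, r = (mat (adj G)).rank := ⟨_, rfl⟩
  have hr' : (G.adjMatrix ℝ).rank = r := by rw [hrr, mat_adj]
  rw [hr'] at hr ⊢
  obtain ⟨k, hk⟩ : ∃ k, k = Nat.log 2 r + 1 := ⟨_, rfl⟩
  obtain ⟨l, hl⟩ : ∃ l, l = k + 3 := ⟨_, rfl⟩
  have hpow : r + 1 ≤ 2 ^ k := by
    rw [hk]
    exact Nat.lt_pow_succ_log_self (by norm_num) r
  have hl8 : 8 * ((mat (adj G)).rank + 1) ≤ 2 ^ l := by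
    rw [← hrr, hl, pow_add]
    calc 8 * (r + 1) ≤ 8 * 2 ^ k := Nat.mul_le_mul_left _ hpow
      _ = 2 ^ k * 2 ^ 3 := by ring
  obtain ⟨s, hs⟩ : ∃ s, s = ⌈μ * r⌉₊ + 1 := ⟨_, rfl⟩
  have hs1 : 1 ≤ s := by omega
  have hs2 : μ * (mat (adj G)).rank ≤ s := by
    rw [← hrr, hs]
    push_cast
    have := Nat.le_ceil (μ * r)
    linarith
  obtain ⟨Q, hQ⟩ : ∃ Q, Q = max m 1 := ⟨_, rfl⟩
  have hQ1 : 1 ≤ Q := by rw [hQ]; exact le_max_right _ _
  have hfew : Few (σ • mat (adj G)) μ univ Q := hm.mono_q (by rw [hQ]; exact le_max_left _ _)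
  -- the constant for independent sets
  obtain ⟨P, hP⟩ : ∃ P, P = cst l 1 ^ (Nat.log 2 (mat (adj G)).rank + 1) * s := ⟨_, rfl⟩
  have hP1 : 1 ≤ P := by
    rw [hP]
    exact Nat.mul_pos (Nat.pow_pos (cst_pos l 1)) hs1
  have hP1' : (1 : ℝ) ≤ P := by exact_mod_cast hP1
  obtain ⟨R, hR⟩ : ∃ R : ℝ, R = 2 ^ (330 * l * Real.sqrt Q) * P := ⟨_, rfl⟩
  have hR1 : 1 ≤ R := by
    rw [hR]
    exact one_le_mul_of_one_le_of_one_le
      (Real.one_le_rpow (by norm_num) (by positivity)) hP1'
  obtain ⟨M, hM⟩ : ∃ M, M = ⌈R⌉₊ := ⟨_, rfl⟩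
  have hM1 : 1 ≤ M := by
    rw [hM]
    exact Nat.one_le_ceil_iff.2 (by linarith)
  have hMR : R ≤ M := by rw [hM]; exact Nat.le_ceil R
  have hMR2 : (M : ℝ) ≤ 2 * R := by
    have := (Nat.ceil_lt_add_one (show 0 ≤ R by linarith)).le
    rw [← hM] at this
    linarith
  have hind : ∀ A : Finset (Fin n), A.Nonempty →
      ∃ I ⊆ A, A.card ≤ M * I.card ∧ ∀ x ∈ I, ∀ y ∈ I, adj G x y = false := by
    intro A hA
    obtain ⟨I, hI, h1, h2⟩ := eig_halving hsym hirr hσ hμ hl8 hs1 hs2 Q A hQ1 hA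
      (hfew.mono (subset_univ A))
    rw [← hP, ← hR] at h1
    refine ⟨I, hI, ?_, h2⟩
    have h3 : (A.card : ℝ) ≤ (M : ℝ) * I.card :=
      h1.trans (mul_le_mul_of_nonneg_right hMR (Nat.cast_nonneg _))
    exact_mod_cast h3
  obtain ⟨X₀, π, hX, hπ⟩ := Pool.Agent.Y424.LR.rows (adj G)
  rw [← hrr] at hX
  have hn : (univ : Finset (Fin n)).card ≤ 2 ^ r := by
    refine le_trans (card_le_card ?_) hX
    intro x _
    have h1 := hinj _ _ (hπ x).2
    rw [← h1]
    exact (hπ x).1
  have hcard : (univ : Finset (Fin n)).card * (M - 1) ^ (M * (r + 1)) < M ^ (M * (r + 1)) := by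
    have h1 := Pool.Agent.Y424.LR.half_pow' hM1 (r + 1)
    rcases Nat.eq_zero_or_pos ((M - 1) ^ (M * (r + 1))) with h0 | h0
    · rw [h0, mul_zero]
      exact Nat.pow_pos (by omega)
    · calc (univ : Finset (Fin n)).card * (M - 1) ^ (M * (r + 1))
          ≤ 2 ^ r * (M - 1) ^ (M * (r + 1)) := Nat.mul_le_mul_right _ hn
        _ < 2 ^ (r + 1) * (M - 1) ^ (M * (r + 1)) :=
            Nat.mul_lt_mul_of_pos_right (Nat.pow_lt_pow_right (by norm_num) (by omega)) h0
        _ ≤ M ^ (M * (r + 1)) := h1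
  obtain ⟨f, hf1, hf2⟩ := Pool.Agent.Y424.PP.colour hM1 hind (M * (r + 1)) univ hcard
  have hcol : G.Colorable (M * (r + 1)) := by
    refine ⟨SimpleGraph.Coloring.mk (fun x => (⟨f x, hf1 x (mem_univ x)⟩ : Fin _)) ?_⟩
    intro x y hxy heq
    have h1 : f x = f y := by
      have := congrArg Fin.val heq
      exact this
    have h2 := hf2 x (mem_univ _) y (mem_univ _) h1
    rw [(hadj x y).2 hxy] at h2
    exact absurd h2 (by decide)
  have hchi : G.chromaticNumber.toNat ≤ M * (r + 1) := by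
    obtain ⟨T, hT⟩ : ∃ T, T = M * (r + 1) := ⟨_, rfl⟩
    rw [← hT] at hcol ⊢
    have := ENat.toNat_le_toNat hcol.chromaticNumber_le (ENat.natCast_ne_top T)
    simpa using this
  -- logarithms
  have hr2 : (2 : ℝ) ≤ (r : ℝ) := by exact_mod_cast hr
  obtain ⟨L, hL⟩ : ∃ L, L = Real.logb 2 (r : ℝ) := ⟨_, rfl⟩
  have hL1 : 1 ≤ L := by
    rw [hL, ← Real.logb_self_eq_one (b := 2) (by norm_num)]
    exact Real.logb_le_logb_of_le (by norm_num) (by norm_num) hr2
  rw [← hL]
  have hkL : (k : ℝ) ≤ L + 1 := by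
    have := Real.natLog_le_logb r 2
    rw [hk, hL]
    push_cast
    have h2 : (Nat.log 2 r : ℝ) ≤ Real.logb 2 (r : ℝ) := by exact_mod_cast this
    linarith
  have hlL : (l : ℝ) ≤ 5 * L := by
    rw [hl]
    push_cast
    linarith
  have hl0 : (0 : ℝ) ≤ l := Nat.cast_nonneg l
  have hmu : 0 ≤ Real.logb 2 (μ + 2) := Real.logb_nonneg (by norm_num) (by linarith)
  have hsm : 0 ≤ Real.sqrt m := Real.sqrt_nonneg _
  by_cases h0 : G.chromaticNumber.toNat = 0
  · rw [h0, Nat.cast_zero, Real.logb_zero]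
    have : 0 ≤ 2400 * (Real.sqrt m + L) * L :=
      mul_nonneg (mul_nonneg (by norm_num) (by linarith)) (by linarith)
    linarith
  · have h3 : (0 : ℝ) < (G.chromaticNumber.toNat : ℝ) := by exact_mod_cast Nat.pos_of_ne_zero h0
    have hbig : (G.chromaticNumber.toNat : ℝ) ≤
        2 * (2 ^ (330 * l * Real.sqrt Q) * ((2 : ℝ) ^ (72 * l + 4 : ℕ)) ^ k * ((μ + 2) * r)) *
          (2 * r) := by
      have e1 : (G.chromaticNumber.toNat : ℝ) ≤ (M : ℝ) * (r + 1) := by exact_mod_cast hchi
      have e2 : (P : ℝ) ≤ ((2 : ℝ) ^ (72 * l + 4 : ℕ)) ^ k * ((μ + 2) * r) := by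
        rw [hP, ← hrr, ← hk]
        push_cast
        have e3 : (cst l 1 : ℝ) = (2 : ℝ) ^ (72 * l + 4 : ℕ) := by
          unfold cst
          have : Nat.sqrt 1 = 1 := by decide
          rw [this]
          push_cast
          rw [show (4 : ℝ) = 2 ^ 2 by norm_num, ← pow_mul, ← pow_add]
          congr 1
          ring
        rw [e3]
        refine mul_le_mul_of_nonneg_left ?_ (by positivity)
        rw [hs]
        push_cast
        have h5 := (Nat.ceil_lt_add_one (show 0 ≤ μ * r by positivity)).le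
        have h6 : (2 : ℝ) ≤ 2 * r := by linarith
        linarith
      have e4 : R ≤ 2 ^ (330 * l * Real.sqrt Q) * ((2 : ℝ) ^ (72 * l + 4 : ℕ)) ^ k *
          ((μ + 2) * r) := by
        rw [hR]
        calc (2 : ℝ) ^ (330 * l * Real.sqrt Q) * P ≤ 2 ^ (330 * l * Real.sqrt Q) *
            (((2 : ℝ) ^ (72 * l + 4 : ℕ)) ^ k * ((μ + 2) * r)) :=
            mul_le_mul_of_nonneg_left e2 (by positivity)
          _ = _ := by ring
      calc (G.chromaticNumber.toNat : ℝ) ≤ (M : ℝ) * (r + 1) := e1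
        _ ≤ (2 * (2 ^ (330 * l * Real.sqrt Q) * ((2 : ℝ) ^ (72 * l + 4 : ℕ)) ^ k *
          ((μ + 2) * r))) * (2 * r) :=
          mul_le_mul (hMR2.trans (by linarith)) (by linarith) (by positivity) (by positivity)
    have h4 := Real.logb_le_logb_of_le (b := 2) (by norm_num) h3 hbig
    have hμ2 : (0 : ℝ) < μ + 2 := by linarith
    have hr0 : (0 : ℝ) < r := by linarith
    rw [Real.logb_mul (by positivity) (by positivity), Real.logb_mul (by norm_num) (by positivity),
      Real.logb_mul (by positivity) (by positivity), Real.logb_mul (by positivity) (by positivity),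
      Real.logb_mul hμ2.ne' hr0.ne', Real.logb_mul (by norm_num) hr0.ne',
      Real.logb_rpow (by norm_num) (by norm_num), Real.logb_pow, Real.logb_pow,
      Real.logb_self_eq_one (by norm_num), ← hL] at h4
    refine h4.trans ?_
    have hsQ : Real.sqrt Q ≤ Real.sqrt m + 1 := by
      rw [Real.sqrt_le_left (by positivity)]
      have hsq := Real.sq_sqrt (Nat.cast_nonneg (α := ℝ) m)
      have hQm : (Q : ℝ) ≤ m + 1 := by
        rw [hQ]
        have : max m 1 ≤ m + 1 := by omega
        exact_mod_cast this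
      nlinarith
    have f1 : 330 * (l : ℝ) * Real.sqrt Q ≤ 1650 * L * (Real.sqrt m + 1) := by
      have := mul_le_mul hlL hsQ (Real.sqrt_nonneg _) (by linarith)
      nlinarith
    have f2 : (k : ℝ) * (((72 * l + 4 : ℕ) : ℝ) * 1) ≤ (2 * L) * (364 * L) := by
      push_cast
      refine mul_le_mul (by linarith) (by linarith) (by positivity) (by linarith)
    have f3 : L ≤ L * L := by nlinarith
    nlinarith [mul_nonneg hsm (show 0 ≤ L by linarith)]

/-- **The graph form of the log-rank conjecture for graphs with few large eigenvalues on one side.**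
Let `G` be a twin-free graph with real adjacency rank `r > 1`, let `μ ≥ 0` and let `m` be the
minimum of the number of eigenvalues of `G` above `μ` and the number of eigenvalues below `-μ`.
Then `log₂ χ(G) ≤ 2400 (√m + log₂ r) log₂ r + log₂ (μ + 2)`.
In particular, if `m ≤ (log₂ r) ^ (2 a)` and `μ + 2 ≤ 2 ^ ((log₂ r) ^ (a + 2))`, then
`log₂ χ(G) ≤ 4801 (log₂ r) ^ (a + 2)`. -/
theorem result (n : ℕ) (G : SimpleGraph (Fin n)) [DecidableRel G.Adj]
    (htw : ∀ u v : Fin n, u ≠ v → ¬ G.Adj u v → G.neighborSet u ≠ G.neighborSet v)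
    (hr : 1 < (G.adjMatrix ℝ).rank) (μ : ℝ) (hμ : 0 ≤ μ) :
    (Real.logb 2 (G.chromaticNumber.toNat : ℝ) ≤
      2400 * (Real.sqrt (min (above G μ) (below G μ) : ℕ) +
        Real.logb 2 ((G.adjMatrix ℝ).rank : ℝ)) * Real.logb 2 ((G.adjMatrix ℝ).rank : ℝ) +
        Real.logb 2 (μ + 2)) ∧
    (∀ a : ℕ, ((min (above G μ) (below G μ) : ℕ) : ℝ) ≤
        Real.logb 2 ((G.adjMatrix ℝ).rank : ℝ) ^ (2 * a) →
      μ + 2 ≤ 2 ^ (Real.logb 2 ((G.adjMatrix ℝ).rank : ℝ) ^ (a + 2)) →
      Real.logb 2 (G.chromaticNumber.toNat : ℝ) ≤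
        4801 * Real.logb 2 ((G.adjMatrix ℝ).rank : ℝ) ^ (a + 2)) := by
  have key : Real.logb 2 (G.chromaticNumber.toNat : ℝ) ≤
      2400 * (Real.sqrt (min (above G μ) (below G μ) : ℕ) +
        Real.logb 2 ((G.adjMatrix ℝ).rank : ℝ)) * Real.logb 2 ((G.adjMatrix ℝ).rank : ℝ) +
        Real.logb 2 (μ + 2) := by
    rcases le_total (above G μ) (below G μ) with h | h
    · rw [min_eq_left h]
      exact bound G htw hr hμ (Or.inl rfl) (few_above G μ)
    · rw [min_eq_right h]
      exact bound G htw hr hμ (Or.inr rfl) (few_below G μ)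
  refine ⟨key, fun a ha hb => key.trans ?_⟩
  have hr2 : (2 : ℝ) ≤ ((G.adjMatrix ℝ).rank : ℝ) := by exact_mod_cast hr
  obtain ⟨L, hL⟩ : ∃ L, L = Real.logb 2 ((G.adjMatrix ℝ).rank : ℝ) := ⟨_, rfl⟩
  have hL1 : 1 ≤ L := by
    rw [hL, ← Real.logb_self_eq_one (b := 2) (by norm_num)]
    exact Real.logb_le_logb_of_le (by norm_num) (by norm_num) hr2
  rw [← hL] at ha hb ⊢
  have h1 : Real.sqrt (min (above G μ) (below G μ) : ℕ) ≤ L ^ a := by
    rw [Real.sqrt_le_left (by positivity), ← pow_mul, mul_comm a 2]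
    exact ha
  have h2 : Real.logb 2 (μ + 2) ≤ L ^ (a + 2) := by
    have := Real.logb_le_logb_of_le (b := 2) (by norm_num) (by linarith) hb
    rwa [Real.logb_rpow (by norm_num) (by norm_num)] at this
  have h3 : L ^ a * L ≤ L ^ (a + 2) := by
    rw [← pow_succ]
    exact pow_le_pow_right₀ hL1 (by omega)
  have h4 : L * L ≤ L ^ (a + 2) := by
    rw [← sq]
    exact pow_le_pow_right₀ hL1 (by omega)
  have h5 : Real.sqrt (min (above G μ) (below G μ) : ℕ) * L ≤ L ^ a * L :=
    mul_le_mul_of_nonneg_right h1 (by linarith)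
  nlinarith

end Pool.Agent.Results.MP_3bd889_lc.FewLargeEigenvalues
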